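import Mathlib

/-!
# Products in the binomial basis preserve log-concavity

`P2 a`: `a i * a (j + 1) ≤ a (i + 1) * a j` for `i ≤ j`, that is, a nonnegative sequence is
log-concave without internal zeros. If `P(k) = ∑ a_j C(k,j)` and `Q(k) = ∑ b_j C(k,j)` with
`P2 a` and `P2 b`, then `P(k) Q(k) = ∑ c_n C(k,n)` with `P2 c`.
-/

set_option autoImplicit false

namespace Pool.Agent.Helper23.LCU

open Finset

/-- log-concave without internal zeros (for nonnegative sequences) -/
def P2 (a : ℕ → ℝ) : Prop := ∀ i j, i ≤ j → a i * a (j + 1) ≤ a (i + 1) * a j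

theorem P2.four {a : ℕ → ℝ} (h : P2 a) (h0 : ∀ i, 0 ≤ a i) (x s t : ℕ) :
    a x * a (x + s + t) ≤ a (x + s) * a (x + t) := by
  -- general: for `x ≤ y`, `a x * a (y + s) ≤ a (x + s) * a y`
  have key : ∀ s x y, x ≤ y → a x * a (y + s) ≤ a (x + s) * a y := by
    intro s
    induction s with
    | zero => intro x y _; simp
    | succ s ih =>
      intro x y hxy
      have h1 := ih x y hxy
      have h2 : a (x + s) * a (y + s + 1) ≤ a (x + s + 1) * a (y + s) := h _ _ (by omega)
      have e1 : y + (s + 1) = y + s + 1 := by ring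
      have e2 : x + (s + 1) = x + s + 1 := by ring
      rw [e1, e2]
      rcases (mul_nonneg (h0 (x + s)) (h0 (y + s))).eq_or_lt with hz | hp
      · -- a (x+s) * a (y+s) = 0
        have h3 : a x * a (y + s + 1) ≤ a (x + s + 1) * a y ∨ a x * a (y + s + 1) = 0 := by
          right
          by_contra hne
          have hx : 0 < a x := lt_of_le_of_ne (h0 _) (fun hh => hne (by rw [← hh]; ring))
          have hy : 0 < a (y + s + 1) := lt_of_le_of_ne (h0 _) (fun hh => hne (by rw [← hh]; ring))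
          -- a (x+s) > 0 : from ih with y' = y + 1
          have h4 := ih x (y + 1) (by omega)
          have e3 : y + 1 + s = y + s + 1 := by ring
          rw [e3] at h4
          have h5 : 0 < a (x + s) * a (y + 1) := lt_of_lt_of_le (mul_pos hx hy) h4
          have h6 : 0 < a (x + s) := by
            rcases (h0 (x + s)).eq_or_lt with hh | hh
            · rw [← hh, zero_mul] at h5; exact absurd h5 (lt_irrefl _)
            · exact hh
          have h7 : 0 < a (x + s + 1) * a (y + s) := lt_of_lt_of_le (mul_pos h6 hy) h2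
          have h8 : 0 < a (y + s) := by
            rcases (h0 (y + s)).eq_or_lt with hh | hh
            · rw [← hh, mul_zero] at h7; exact absurd h7 (lt_irrefl _)
            · exact hh
          exact absurd hz (ne_of_lt (mul_pos h6 h8))
        rcases h3 with h3 | h3
        · exact h3
        · rw [h3]; exact mul_nonneg (h0 _) (h0 _)
      · have h3 := mul_le_mul h1 h2 (mul_nonneg (h0 _) (h0 _)) (mul_nonneg (h0 _) (h0 _))
        have h4 : (a (x + s) * a (y + s)) * (a x * a (y + s + 1)) ≤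
            (a (x + s) * a (y + s)) * (a (x + s + 1) * a y) := by
          calc _ = a x * a (y + s) * (a (x + s) * a (y + s + 1)) := by ring
            _ ≤ a (x + s) * a y * (a (x + s + 1) * a (y + s)) := h3
            _ = _ := by ring
        exact le_of_mul_le_mul_left h4 hp
  have := key t x (x + s) (by omega)
  calc a x * a (x + s + t) ≤ a (x + t) * a (x + s) := this
    _ = _ := mul_comm _ _

/-- the iterated sums `Y b i x = ∑ l, C(i,l) b (x + l)` -/
def Y (b : ℕ → ℝ) : ℕ → ℕ → ℝ
  | 0, x => b x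
  | i + 1, x => Y b i x + Y b i (x + 1)

theorem Y_nonneg {b : ℕ → ℝ} (h0 : ∀ i, 0 ≤ b i) : ∀ i x, 0 ≤ Y b i x := by
  intro i
  induction i with
  | zero => intro x; exact h0 x
  | succ i ih => intro x; exact add_nonneg (ih _) (ih _)

theorem Y_P2 {b : ℕ → ℝ} (h0 : ∀ i, 0 ≤ b i) (h : P2 b) : ∀ i, P2 (Y b i) := by
  intro i
  induction i with
  | zero => exact h
  | succ i ih =>
    intro x y hxy
    show (Y b i x + Y b i (x + 1)) * (Y b i (y + 1) + Y b i (y + 1 + 1)) ≤
      (Y b i (x + 1) + Y b i (x + 1 + 1)) * (Y b i y + Y b i (y + 1))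
    have h1 := ih x y hxy
    have h2 := ih (x + 1) (y + 1) (by omega)
    have h3 := ih.four (Y_nonneg h0 i) x (y - x) 2
    have e1 : x + (y - x) + 2 = y + 1 + 1 := by omega
    have e2 : x + (y - x) = y := by omega
    rw [e1, e2] at h3
    have e3 : x + 2 = x + 1 + 1 := rfl
    rw [e3] at h3
    nlinarith [h1, h2, h3]

/-- for `i ≤ j` and `u + (j - i) ≤ v`: `Y i (v+1) * Y j u ≤ Y i v * Y j (u+1)` -/
theorem Y_slide {b : ℕ → ℝ} (h0 : ∀ i, 0 ≤ b i) (h : P2 b) (i : ℕ) :
    ∀ d u v, u + d ≤ v → Y b i (v + 1) * Y b (i + d) u ≤ Y b i v * Y b (i + d) (u + 1) := by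
  intro d
  induction d with
  | zero =>
    intro u v huv
    have := Y_P2 h0 h i u v (by omega)
    simp only [Nat.add_zero]
    linarith [mul_comm (Y b i (v + 1)) (Y b i u), mul_comm (Y b i v) (Y b i (u + 1))]
  | succ d ih =>
    intro u v huv
    show Y b i (v + 1) * (Y b (i + d) u + Y b (i + d) (u + 1)) ≤
      Y b i v * (Y b (i + d) (u + 1) + Y b (i + d) (u + 1 + 1))
    have h1 := ih u v (by omega)
    have h2 := ih (u + 1) v (by omega)
    nlinarith [h1, h2]

/-- the weights -/
theorem W_P2 {b : ℕ → ℝ} (h0 : ∀ i, 0 ≤ b i) (h : P2 b) (n q : ℕ) :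
    P2 (fun i => (n.choose i : ℝ) * Y b i (q + n - i)) := by
  intro i j hij
  by_cases hj : n < j + 1
  · have : n.choose (j + 1) = 0 := Nat.choose_eq_zero_of_lt hj
    simp only [this, Nat.cast_zero, zero_mul, mul_zero]
    exact mul_nonneg (mul_nonneg (Nat.cast_nonneg _) (Y_nonneg h0 _ _))
      (mul_nonneg (Nat.cast_nonneg _) (Y_nonneg h0 _ _))
  · push Not at hj
    -- binomials
    have hb : (n.choose i : ℝ) * n.choose (j + 1) ≤ n.choose (i + 1) * n.choose j := by
      have hi : ((i : ℝ) + 1) * n.choose (i + 1) = ((n : ℝ) - i) * n.choose i := by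
        have := Nat.choose_succ_right_eq n i
        have h2 : ((n.choose (i + 1) * (i + 1) : ℕ) : ℝ) = ((n.choose i * (n - i) : ℕ) : ℝ) := by
          rw [this]
        push_cast [Nat.cast_sub (show i ≤ n by omega)] at h2
        linarith
      have hjj : ((j : ℝ) + 1) * n.choose (j + 1) = ((n : ℝ) - j) * n.choose j := by
        have := Nat.choose_succ_right_eq n j
        have h2 : ((n.choose (j + 1) * (j + 1) : ℕ) : ℝ) = ((n.choose j * (n - j) : ℕ) : ℝ) := by
          rw [this]
        push_cast [Nat.cast_sub (show j ≤ n by omega)] at h2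
        linarith
      have hiR : (i : ℝ) ≤ j := by exact_mod_cast hij
      have hjR : (j : ℝ) + 1 ≤ n := by exact_mod_cast hj
      have i0 : (0 : ℝ) ≤ i := Nat.cast_nonneg _
      have ci : (0 : ℝ) ≤ n.choose i := Nat.cast_nonneg _
      have cj : (0 : ℝ) ≤ n.choose j := Nat.cast_nonneg _
      have pos : (0 : ℝ) < ((i : ℝ) + 1) * ((j : ℝ) + 1) := by positivity
      have : ((i : ℝ) + 1) * ((j : ℝ) + 1) * ((n.choose i : ℝ) * n.choose (j + 1)) ≤
          ((i : ℝ) + 1) * ((j : ℝ) + 1) * (n.choose (i + 1) * n.choose j) := by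
        have l1 : ((i : ℝ) + 1) * ((j : ℝ) + 1) * ((n.choose i : ℝ) * n.choose (j + 1)) =
            ((i : ℝ) + 1) * ((n : ℝ) - j) * (n.choose i * n.choose j) := by
          calc _ = ((i : ℝ) + 1) * n.choose i * (((j : ℝ) + 1) * n.choose (j + 1)) := by ring
            _ = _ := by rw [hjj]; ring
        have l2 : ((i : ℝ) + 1) * ((j : ℝ) + 1) * (n.choose (i + 1) * n.choose j) =
            ((j : ℝ) + 1) * ((n : ℝ) - i) * (n.choose i * n.choose j) := by
          calc _ = ((j : ℝ) + 1) * n.choose j * (((i : ℝ) + 1) * n.choose (i + 1)) := by ring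
            _ = _ := by rw [hi]; ring
        rw [l1, l2]
        apply mul_le_mul_of_nonneg_right _ (mul_nonneg ci cj)
        nlinarith
      exact le_of_mul_le_mul_left this pos
    have hY := Y_slide h0 h i (j - i) (q + n - j - 1) (q + n - i - 1) (by omega)
    have e1 : i + (j - i) = j := by omega
    have e2 : q + n - i - 1 + 1 = q + n - i := by omega
    have e3 : q + n - j - 1 + 1 = q + n - j := by omega
    rw [e1, e2, e3] at hY
    -- Y i (c-i) * Y j (c-j-1) ≤ Y i (c-i-1) * Y j (c-j)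
    have e4 : Y b (j + 1) (q + n - (j + 1)) = Y b j (q + n - j - 1) + Y b j (q + n - j) := by
      have : q + n - (j + 1) = q + n - j - 1 := by omega
      rw [this]
      show Y b j (q + n - j - 1) + Y b j (q + n - j - 1 + 1) = _
      rw [e3]
    have e5 : Y b (i + 1) (q + n - (i + 1)) = Y b i (q + n - i - 1) + Y b i (q + n - i) := by
      have : q + n - (i + 1) = q + n - i - 1 := by omega
      rw [this]
      show Y b i (q + n - i - 1) + Y b i (q + n - i - 1 + 1) = _
      rw [e2]
    have hYY : Y b i (q + n - i) * Y b (j + 1) (q + n - (j + 1)) ≤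
        Y b (i + 1) (q + n - (i + 1)) * Y b j (q + n - j) := by
      rw [e4, e5]; nlinarith [hY]
    have z1 := Y_nonneg h0 i (q + n - i)
    have z2 := Y_nonneg h0 (j + 1) (q + n - (j + 1))
    calc (n.choose i : ℝ) * Y b i (q + n - i) * ((n.choose (j + 1) : ℝ) * Y b (j + 1) (q + n - (j + 1)))
        = ((n.choose i : ℝ) * n.choose (j + 1)) *
            (Y b i (q + n - i) * Y b (j + 1) (q + n - (j + 1))) := by ring
      _ ≤ (n.choose (i + 1) * n.choose j) *
            (Y b (i + 1) (q + n - (i + 1)) * Y b j (q + n - j)) :=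
          mul_le_mul hb hYY (mul_nonneg z1 z2) (by positivity)
      _ = _ := by ring

/-- correlation of two `P2` sequences -/
theorem corr_P2 {a w : ℕ → ℝ} (_a0 : ∀ i, 0 ≤ a i) (ha : P2 a) (w0 : ∀ i, 0 ≤ w i) (hw : P2 w)
    (N : ℕ) (hN : ∀ i, N ≤ i → w i = 0) :
    P2 (fun p => ∑ i ∈ range N, a (p + i) * w i) := by
  intro p p' hp
  set M := p' + N + 2 with hM
  let W : ℕ → ℕ → ℝ := fun m s => if m < s then 0 else w (m - s)
  have hsum : ∀ s, s ≤ p' + 1 → ∑ i ∈ range N, a (s + i) * w i = ∑ m ∈ range M, a m * W m s := by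
    intro s hs
    have h1 : ∑ m ∈ range M, a m * W m s = ∑ m ∈ range (s + N), a m * W m s := by
      refine (sum_subset (fun x hx => ?_) (fun x _ hx => ?_)).symm
      · simp only [mem_range] at *; omega
      · simp only [mem_range, not_lt] at hx
        have : W x s = 0 := by
          show (if x < s then 0 else w (x - s)) = 0
          rw [if_neg (by omega), hN _ (by omega)]
        rw [this, mul_zero]
    rw [h1, sum_range_add (fun m => a m * W m s) s N]
    have h2 : ∑ x ∈ range s, a x * W x s = 0 := by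
      apply sum_eq_zero
      intro x hx
      have : W x s = 0 := by
        show (if x < s then 0 else w (x - s)) = 0
        rw [if_pos (mem_range.1 hx)]
      rw [this, mul_zero]
    rw [h2, zero_add]
    apply sum_congr rfl
    intro x _
    have : W (s + x) s = w x := by
      show (if s + x < s then 0 else w (s + x - s)) = w x
      rw [if_neg (by omega), Nat.add_sub_cancel_left]
    rw [this]
  have hsum' : ∀ s, s ≤ p' → ∑ i ∈ range N, a (s + 1 + i) * w i =
      ∑ m ∈ range M, a (m + 1) * W m s := by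
    intro s hs
    have h1 : ∑ m ∈ range M, a (m + 1) * W m s = ∑ m ∈ range (s + N), a (m + 1) * W m s := by
      refine (sum_subset (fun x hx => ?_) (fun x _ hx => ?_)).symm
      · simp only [mem_range] at *; omega
      · simp only [mem_range, not_lt] at hx
        have : W x s = 0 := by
          show (if x < s then 0 else w (x - s)) = 0
          rw [if_neg (by omega), hN _ (by omega)]
        rw [this, mul_zero]
    rw [h1, sum_range_add (fun m => a (m + 1) * W m s) s N]
    have h2 : ∑ x ∈ range s, a (x + 1) * W x s = 0 := by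
      apply sum_eq_zero
      intro x hx
      have : W x s = 0 := by
        show (if x < s then 0 else w (x - s)) = 0
        rw [if_pos (mem_range.1 hx)]
      rw [this, mul_zero]
    rw [h2, zero_add]
    apply sum_congr rfl
    intro x _
    have : W (s + x) s = w x := by
      show (if s + x < s then 0 else w (s + x - s)) = w x
      rw [if_neg (by omega), Nat.add_sub_cancel_left]
    rw [this]
    congr 2
    omega
  have W0 : ∀ m s, 0 ≤ W m s := by
    intro m s
    show (0 : ℝ) ≤ (if m < s then 0 else w (m - s))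
    split_ifs
    · exact le_refl _
    · exact w0 _
  -- second factor
  have hW : ∀ m m', m ≤ m' → W m' p * W m p' ≤ W m p * W m' p' := by
    intro m m' hm
    by_cases h1 : m < p'
    · have : W m p' = 0 := by
        show (if m < p' then 0 else w (m - p')) = 0
        rw [if_pos h1]
      rw [this, mul_zero]
      exact mul_nonneg (W0 _ _) (W0 _ _)
    · have e1 : W m p' = w (m - p') := by
        show (if m < p' then 0 else w (m - p')) = _
        rw [if_neg h1]
      have e2 : W m' p' = w (m' - p') := by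
        show (if m' < p' then 0 else w (m' - p')) = _
        rw [if_neg (by omega)]
      have e3 : W m p = w (m - p) := by
        show (if m < p then 0 else w (m - p)) = _
        rw [if_neg (by omega)]
      have e4 : W m' p = w (m' - p) := by
        show (if m' < p then 0 else w (m' - p)) = _
        rw [if_neg (by omega)]
      rw [e1, e2, e3, e4]
      have := hw.four w0 (m - p') (p' - p) (m' - m)
      have f1 : m - p' + (p' - p) + (m' - m) = m' - p := by omega
      have f2 : m - p' + (p' - p) = m - p := by omega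
      have f3 : m - p' + (m' - m) = m' - p' := by omega
      rw [f1, f2, f3] at this
      linarith [mul_comm (w (m' - p)) (w (m - p'))]
  let F : ℕ → ℕ → ℝ := fun m m' => W m p * W m' p' * (a m * a (m' + 1) - a (m + 1) * a m')
  have hF : ∀ m m', F m m' + F m' m ≤ 0 := by
    have hF1 : ∀ m m', m ≤ m' → F m m' + F m' m ≤ 0 := by
      intro m m' hm
      have h1 := ha m m' hm
      have h2 := hW m m' hm
      have : F m m' + F m' m =
          (a m * a (m' + 1) - a (m + 1) * a m') * (W m p * W m' p' - W m' p * W m p') := by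
        show W m p * W m' p' * (a m * a (m' + 1) - a (m + 1) * a m') +
          W m' p * W m p' * (a m' * a (m + 1) - a (m' + 1) * a m) = _
        ring
      rw [this]
      exact mul_nonpos_of_nonpos_of_nonneg (by linarith) (by linarith)
    intro m m'
    rcases le_total m m' with h | h
    · exact hF1 m m' h
    · rw [add_comm]; exact hF1 m' m h
  have hFF : ∑ m ∈ range M, ∑ m' ∈ range M, F m m' ≤ 0 := by
    have h1 : ∑ m ∈ range M, ∑ m' ∈ range M, F m m' = ∑ m ∈ range M, ∑ m' ∈ range M, F m' m :=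
      sum_comm
    have h2 : ∑ m ∈ range M, ∑ m' ∈ range M, (F m m' + F m' m) ≤ 0 :=
      sum_nonpos (fun m _ => sum_nonpos (fun m' _ => hF m m'))
    have h3 : ∑ m ∈ range M, ∑ m' ∈ range M, (F m m' + F m' m) =
        ∑ m ∈ range M, ∑ m' ∈ range M, F m m' + ∑ m ∈ range M, ∑ m' ∈ range M, F m' m := by
      simp only [sum_add_distrib]
    linarith
  show (∑ i ∈ range N, a (p + i) * w i) * (∑ i ∈ range N, a (p' + 1 + i) * w i) ≤
    (∑ i ∈ range N, a (p + 1 + i) * w i) * (∑ i ∈ range N, a (p' + i) * w i)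
  rw [hsum p (by omega), hsum' p' le_rfl, hsum' p hp, hsum p' (by omega)]
  have h4 : (∑ m ∈ range M, a m * W m p) * (∑ m ∈ range M, a (m + 1) * W m p') -
      (∑ m ∈ range M, a (m + 1) * W m p) * (∑ m ∈ range M, a m * W m p') =
      ∑ m ∈ range M, ∑ m' ∈ range M, F m m' := by
    rw [sum_mul_sum, sum_mul_sum, ← sum_sub_distrib]
    apply sum_congr rfl
    intro m _
    rw [← sum_sub_distrib]
    apply sum_congr rfl
    intro m' _
    show _ = W m p * W m' p' * (a m * a (m' + 1) - a (m + 1) * a m')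
    ring
  linarith

/-- `G n = (E_A + E_B + E_A E_B)^n (a ⊗ b)` -/
def G (a b : ℕ → ℝ) : ℕ → ℕ → ℕ → ℝ
  | 0, p, q => a p * b q
  | n + 1, p, q => G a b n (p + 1) q + G a b n p (q + 1) + G a b n (p + 1) (q + 1)

theorem G_nonneg {a b : ℕ → ℝ} (a0 : ∀ i, 0 ≤ a i) (b0 : ∀ i, 0 ≤ b i) :
    ∀ n p q, 0 ≤ G a b n p q := by
  intro n
  induction n with
  | zero => intro p q; exact mul_nonneg (a0 _) (b0 _)
  | succ n ih => intro p q; exact add_nonneg (add_nonneg (ih _ _) (ih _ _)) (ih _ _)

theorem G_comm (a b : ℕ → ℝ) : ∀ n p q, G a b n p q = G b a n q p := by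
  intro n
  induction n with
  | zero => intro p q; exact mul_comm _ _
  | succ n ih =>
    intro p q
    show G a b n (p + 1) q + G a b n p (q + 1) + G a b n (p + 1) (q + 1) =
      G b a n (q + 1) p + G b a n q (p + 1) + G b a n (q + 1) (p + 1)
    rw [ih, ih, ih]; ring

theorem pascal_sum (φ : ℕ → ℝ) (n : ℕ) :
    ∑ i ∈ range (n + 1), (n.choose i : ℝ) * (φ (i + 1) + φ i) =
      ∑ i ∈ range (n + 2), ((n + 1).choose i : ℝ) * φ i := by
  have h1 : ∑ i ∈ range (n + 2), ((n + 1).choose i : ℝ) * φ i =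
      ∑ i ∈ range (n + 1), ((n + 1).choose (i + 1) : ℝ) * φ (i + 1) + φ 0 := by
    rw [sum_range_succ']; simp
  have h2 : ∑ i ∈ range (n + 1), (n.choose i : ℝ) * φ i =
      ∑ i ∈ range (n + 1), (n.choose (i + 1) : ℝ) * φ (i + 1) + φ 0 := by
    have : ∑ i ∈ range (n + 2), (n.choose i : ℝ) * φ i =
        ∑ i ∈ range (n + 1), (n.choose (i + 1) : ℝ) * φ (i + 1) + φ 0 := by
      rw [sum_range_succ']; simp
    rw [← this, sum_range_succ _ (n + 1)]
    simp
  have h3 : ∑ i ∈ range (n + 1), (n.choose i : ℝ) * (φ (i + 1) + φ i) =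
      ∑ i ∈ range (n + 1), (n.choose i : ℝ) * φ (i + 1) +
        ∑ i ∈ range (n + 1), (n.choose i : ℝ) * φ i := by
    rw [← sum_add_distrib]; exact sum_congr rfl (fun i _ => by ring)
  rw [h3, h1, h2, ← add_assoc, ← sum_add_distrib]
  congr 1
  refine sum_congr rfl (fun i _ => ?_)
  rw [Nat.choose_succ_succ]
  push_cast
  ring

theorem G_formula (a b : ℕ → ℝ) : ∀ n p q, G a b n p q =
    ∑ i ∈ range (n + 1), a (p + i) * ((n.choose i : ℝ) * Y b i (q + n - i)) := by
  intro n
  induction n with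
  | zero => intro p q; simp [G, Y]
  | succ n ih =>
    intro p q
    have h := pascal_sum (fun i => a (p + i) * Y b i (q + (n + 1) - i)) n
    have hr : ∑ i ∈ range (n + 1 + 1), a (p + i) * (((n + 1).choose i : ℝ) * Y b i (q + (n + 1) - i)) =
        ∑ i ∈ range (n + 2), ((n + 1).choose i : ℝ) * (a (p + i) * Y b i (q + (n + 1) - i)) :=
      sum_congr rfl (fun i _ => by ring)
    rw [hr, ← h]
    show G a b n (p + 1) q + G a b n p (q + 1) + G a b n (p + 1) (q + 1) = _
    rw [ih, ih, ih, ← sum_add_distrib, ← sum_add_distrib]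
    refine sum_congr rfl (fun i hi => ?_)
    have hi' : i < n + 1 := mem_range.1 hi
    have e1 : Y b (i + 1) (q + (n + 1) - (i + 1)) = Y b i (q + n - i) + Y b i (q + 1 + n - i) := by
      have : q + (n + 1) - (i + 1) = q + n - i := by omega
      rw [this]
      show Y b i (q + n - i) + Y b i (q + n - i + 1) = _
      have : q + n - i + 1 = q + 1 + n - i := by omega
      rw [this]
    have e2 : q + (n + 1) - i = q + 1 + n - i := by omega
    have e3 : p + 1 + i = p + (i + 1) := by omega
    rw [e1, e2, e3]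
    ring

theorem G_Lp {a b : ℕ → ℝ} (a0 : ∀ i, 0 ≤ a i) (b0 : ∀ i, 0 ≤ b i) (ha : P2 a) (hb : P2 b)
    (n q : ℕ) : P2 (fun p => G a b n p q) := by
  have h := corr_P2 a0 ha (w := fun i => (n.choose i : ℝ) * Y b i (q + n - i))
    (fun i => mul_nonneg (Nat.cast_nonneg _) (Y_nonneg b0 _ _)) (W_P2 b0 hb n q) (n + 1)
    (fun i hi => by simp [Nat.choose_eq_zero_of_lt (show n < i by omega)])
  intro i j hij
  have := h i j hij
  simp only [← G_formula] at this
  exact this

/-- the strong forms: the ratios in both directions decrease in both variables -/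
def S (g : ℕ → ℕ → ℝ) : Prop := ∀ p p' q q', p ≤ p' → q ≤ q' →
  g p q * g (p' + 1) q' ≤ g (p + 1) q * g p' q'

/-- the two-step form -/
theorem S.two {g : ℕ → ℕ → ℝ} (hg : S g) (g0 : ∀ p q, 0 ≤ g p q) (p q q' : ℕ) (hq : q ≤ q') :
    g p q * g (p + 2) q' ≤ g (p + 2) q * g p q' := by
  have h1 := hg p p q q' le_rfl hq
  have h2 := hg (p + 1) (p + 1) q q' le_rfl hq
  have h3 := hg p (p + 1) q q' (by omega) hq
  have e : p + 1 + 1 = p + 2 := rfl
  rw [e] at h2 h3
  rcases (mul_nonneg (g0 (p + 1) q) (g0 (p + 1) q')).eq_or_lt with hz | hp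
  · have : g p q * g (p + 2) q' ≤ 0 := by rw [hz]; exact h3
    exact this.trans (mul_nonneg (g0 _ _) (g0 _ _))
  · have h4 := mul_le_mul h1 h2 (mul_nonneg (g0 _ _) (g0 _ _)) (mul_nonneg (g0 _ _) (g0 _ _))
    have h5 : (g (p + 1) q * g (p + 1) q') * (g p q * g (p + 2) q') ≤
        (g (p + 1) q * g (p + 1) q') * (g (p + 2) q * g p q') := by
      calc _ = g p q * g (p + 1) q' * (g (p + 1) q * g (p + 2) q') := by ring
        _ ≤ g (p + 1) q * g p q' * (g (p + 2) q * g (p + 1) q') := h4
        _ = _ := by ring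
    exact le_of_mul_le_mul_left h5 hp

theorem four_nums {U V W Z : ℝ} (U0 : 0 ≤ U) (V0 : 0 ≤ V) (W0 : 0 ≤ W) (Z0 : 0 ≤ Z)
    (hW : W ≤ U) (hZ : Z ≤ U) (h : W * Z ≤ U * V) : W + Z ≤ U + V := by
  rcases U0.eq_or_lt with hz | hp
  · have h1 : W = 0 := le_antisymm (by linarith) W0
    have h2 : Z = 0 := le_antisymm (by linarith) Z0
    rw [h1, h2]; linarith
  · have : U * (W + Z) ≤ U * (U + V) := by nlinarith [mul_nonneg (sub_nonneg.2 hW) (sub_nonneg.2 hZ)]
    exact le_of_mul_le_mul_left this hp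

theorem G_S {a b : ℕ → ℝ} (a0 : ∀ i, 0 ≤ a i) (b0 : ∀ i, 0 ≤ b i) (ha : P2 a) (hb : P2 b) :
    ∀ n, S (G a b n) ∧ S (fun q p => G a b n p q) := by
  -- one step
  have step : ∀ a b : ℕ → ℝ, (∀ i, 0 ≤ a i) → (∀ i, 0 ≤ b i) → P2 a → P2 b → ∀ n,
      S (G a b n) → S (fun q p => G a b n p q) → S (G a b (n + 1)) := by
    intro a b a0 b0 ha hb n h1 h2 p p' q q' hp hq
    set g := G a b n with hg
    have g0 : ∀ p q, 0 ≤ g p q := G_nonneg a0 b0 n
    rcases hp.eq_or_lt with hpe | hpl
    · subst hpe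
      rcases hq.eq_or_lt with hqe | hql
      · subst hqe; exact le_of_eq (mul_comm _ _)
      · show (g (p + 1) q + g p (q + 1) + g (p + 1) (q + 1)) *
            (g (p + 1 + 1) q' + g (p + 1) (q' + 1) + g (p + 1 + 1) (q' + 1)) ≤
          (g (p + 1 + 1) q + g (p + 1) (q + 1) + g (p + 1 + 1) (q + 1)) *
            (g (p + 1) q' + g p (q' + 1) + g (p + 1) (q' + 1))
        have t1 := h1 (p + 1) (p + 1) q q' le_rfl hq
        have t2 := h1 (p + 1) (p + 1) q (q' + 1) le_rfl (by omega)
        have t3 := h1 p (p + 1) (q + 1) q' (by omega) (by omega)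
        have t4 := h1 p p (q + 1) (q' + 1) le_rfl (by omega)
        have t5 := h1 p (p + 1) (q + 1) (q' + 1) (by omega) (by omega)
        have t6 := h1 (p + 1) (p + 1) (q + 1) q' le_rfl (by omega)
        have t7 := h1 (p + 1) (p + 1) (q + 1) (q' + 1) le_rfl (by omega)
        -- pair (10,01),(01,10)
        have hWU : g (p + 1) q * g (p + 1) (q' + 1) ≤ g (p + 1) (q + 1) * g (p + 1) q' :=
          h2 q q' (p + 1) (p + 1) hq le_rfl
        have hWZ : (g (p + 1) q * g (p + 1) (q' + 1)) * (g p (q + 1) * g (p + 1 + 1) q') ≤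
            (g (p + 1) (q + 1) * g (p + 1) q') * (g (p + 1 + 1) q * g p (q' + 1)) := by
          have := mul_le_mul t1 t4 (mul_nonneg (g0 _ _) (g0 _ _)) (mul_nonneg (g0 _ _) (g0 _ _))
          calc _ = g (p + 1) q * g (p + 1 + 1) q' * (g p (q + 1) * g (p + 1) (q' + 1)) := by ring
            _ ≤ g (p + 1 + 1) q * g (p + 1) q' * (g (p + 1) (q + 1) * g p (q' + 1)) := this
            _ = _ := by ring
        have hA := four_nums (mul_nonneg (g0 (p + 1) (q + 1)) (g0 (p + 1) q'))
          (mul_nonneg (g0 (p + 1 + 1) q) (g0 p (q' + 1)))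
          (mul_nonneg (g0 (p + 1) q) (g0 (p + 1) (q' + 1)))
          (mul_nonneg (g0 p (q + 1)) (g0 (p + 1 + 1) q')) hWU t3 hWZ
        have hB : g p (q + 1) * g (p + 1 + 1) (q' + 1) ≤ g (p + 1 + 1) (q + 1) * g p (q' + 1) :=
          S.two h1 g0 p (q + 1) (q' + 1) (by omega)
        nlinarith [t1, t2, t4, t6, t7, hA, hB]
    · rcases hq.eq_or_lt with hqe | hql
      · subst hqe
        exact G_Lp a0 b0 ha hb (n + 1) q p p' hp
      · show (g (p + 1) q + g p (q + 1) + g (p + 1) (q + 1)) *
            (g (p' + 1 + 1) q' + g (p' + 1) (q' + 1) + g (p' + 1 + 1) (q' + 1)) ≤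
          (g (p + 1 + 1) q + g (p + 1) (q + 1) + g (p + 1 + 1) (q + 1)) *
            (g (p' + 1) q' + g p' (q' + 1) + g (p' + 1) (q' + 1))
        have t1 := h1 (p + 1) (p' + 1) q q' (by omega) (by omega)
        have t2 := h1 (p + 1) p' q (q' + 1) (by omega) (by omega)
        have t3 := h1 (p + 1) (p' + 1) q (q' + 1) (by omega) (by omega)
        have t4 := h1 p (p' + 1) (q + 1) q' (by omega) (by omega)
        have t5 := h1 p p' (q + 1) (q' + 1) (by omega) (by omega)
        have t6 := h1 p (p' + 1) (q + 1) (q' + 1) (by omega) (by omega)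
        have t7 := h1 (p + 1) (p' + 1) (q + 1) q' (by omega) (by omega)
        have t8 := h1 (p + 1) p' (q + 1) (q' + 1) (by omega) (by omega)
        have t9 := h1 (p + 1) (p' + 1) (q + 1) (q' + 1) (by omega) (by omega)
        nlinarith [t1, t2, t3, t4, t5, t6, t7, t8, t9]
  intro n
  induction n with
  | zero =>
    refine ⟨fun p p' q q' hp _ => ?_, fun q q' p p' hq _ => ?_⟩
    · show a p * b q * (a (p' + 1) * b q') ≤ a (p + 1) * b q * (a p' * b q')
      nlinarith [mul_le_mul_of_nonneg_left (ha p p' hp) (mul_nonneg (b0 q) (b0 q'))]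
    · show a p * b q * (a p' * b (q' + 1)) ≤ a p * b (q + 1) * (a p' * b q')
      nlinarith [mul_le_mul_of_nonneg_left (hb q q' hq) (mul_nonneg (a0 p) (a0 p'))]
  | succ n ih =>
    refine ⟨step a b a0 b0 ha hb n ih.1 ih.2, ?_⟩
    have e : ∀ m, (fun q p => G a b m p q) = G b a m := by
      intro m; funext q p; exact G_comm a b m p q
    rw [e]
    refine step b a b0 a0 hb ha n ?_ ?_
    · rw [← e]; exact ih.2
    · have e' : (fun q p => G b a n p q) = G a b n := by
        funext q p; exact G_comm b a n p q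
      rw [e']; exact ih.1

/-- the coefficients of the product in the binomial basis -/
def c (a b : ℕ → ℝ) (n : ℕ) : ℝ := G a b n 0 0

theorem c_nonneg {a b : ℕ → ℝ} (a0 : ∀ i, 0 ≤ a i) (b0 : ∀ i, 0 ≤ b i) (n : ℕ) : 0 ≤ c a b n :=
  G_nonneg a0 b0 n 0 0

theorem G_cross {a b : ℕ → ℝ} (a0 : ∀ i, 0 ≤ a i) (b0 : ∀ i, 0 ≤ b i) (ha : P2 a) (hb : P2 b)
    (m : ℕ) : ∀ d p p' q q', p ≤ p' → q ≤ q' →
      G a b m p q * G a b (m + d) (p' + 1) q' ≤ G a b m (p + 1) q * G a b (m + d) p' q' ∧
      G a b m p q * G a b (m + d) p' (q' + 1) ≤ G a b m p (q + 1) * G a b (m + d) p' q' ∧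
      G a b m p q * G a b (m + d) (p' + 1) (q' + 1) ≤
        G a b m (p + 1) (q + 1) * G a b (m + d) p' q' := by
  intro d
  induction d with
  | zero =>
    intro p p' q q' hp hq
    have hS := G_S a0 b0 ha hb m
    set g := G a b m with hg
    have g0 : ∀ p q, 0 ≤ g p q := G_nonneg a0 b0 m
    have h1 : ∀ p p' q q', p ≤ p' → q ≤ q' → g p q * g (p' + 1) q' ≤ g (p + 1) q * g p' q' := hS.1
    have h2 : ∀ p p' q q', p ≤ p' → q ≤ q' → g p q * g p' (q' + 1) ≤ g p (q + 1) * g p' q' :=
      fun p p' q q' hp hq => hS.2 q q' p p' hq hp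
    refine ⟨h1 p p' q q' hp hq, h2 p p' q q' hp hq, ?_⟩
    show g p q * g (p' + 1) (q' + 1) ≤ g (p + 1) (q + 1) * g p' q'
    have k1 := h1 p p' q q' hp hq
    have k2 := h2 (p + 1) (p' + 1) q q' (by omega) hq
    have k3 := h1 p p' q (q' + 1) hp (by omega)
    have k4 := h2 p (p' + 1) q q' (by omega) hq
    rcases (mul_nonneg (g0 p q) (g0 (p' + 1) (q' + 1))).eq_or_lt with hz | hpos
    · rw [← hz]; exact mul_nonneg (g0 _ _) (g0 _ _)
    · have l1 : 0 < g (p + 1) q := by
        have := lt_of_lt_of_le hpos k3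
        rcases (g0 (p + 1) q).eq_or_lt with hh | hh
        · rw [← hh, zero_mul] at this; exact absurd this (lt_irrefl _)
        · exact hh
      have l2 : 0 < g (p' + 1) q' := by
        have := lt_of_lt_of_le hpos k4
        rcases (g0 (p' + 1) q').eq_or_lt with hh | hh
        · rw [← hh, mul_zero] at this; exact absurd this (lt_irrefl _)
        · exact hh
      have k5 := mul_le_mul k1 k2 (mul_nonneg (g0 _ _) (g0 _ _)) (mul_nonneg (g0 _ _) (g0 _ _))
      have k6 : (g (p + 1) q * g (p' + 1) q') * (g p q * g (p' + 1) (q' + 1)) ≤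
          (g (p + 1) q * g (p' + 1) q') * (g (p + 1) (q + 1) * g p' q') := by
        calc _ = g p q * g (p' + 1) q' * (g (p + 1) q * g (p' + 1) (q' + 1)) := by ring
          _ ≤ g (p + 1) q * g p' q' * (g (p + 1) (q + 1) * g (p' + 1) q') := k5
          _ = _ := by ring
      exact le_of_mul_le_mul_left k6 (mul_pos l1 l2)
  | succ d ih =>
    intro p p' q q' hp hq
    have i1 := ih p (p' + 1) q q' (by omega) hq
    have i2 := ih p p' q (q' + 1) hp (by omega)
    have i3 := ih p (p' + 1) q (q' + 1) (by omega) (by omega)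
    refine ⟨?_, ?_, ?_⟩
    · show G a b m p q * (G a b (m + d) (p' + 1 + 1) q' + G a b (m + d) (p' + 1) (q' + 1) +
          G a b (m + d) (p' + 1 + 1) (q' + 1)) ≤
        G a b m (p + 1) q * (G a b (m + d) (p' + 1) q' + G a b (m + d) p' (q' + 1) +
          G a b (m + d) (p' + 1) (q' + 1))
      nlinarith [i1.1, i2.1, i3.1]
    · show G a b m p q * (G a b (m + d) (p' + 1) (q' + 1) + G a b (m + d) p' (q' + 1 + 1) +
          G a b (m + d) (p' + 1) (q' + 1 + 1)) ≤
        G a b m p (q + 1) * (G a b (m + d) (p' + 1) q' + G a b (m + d) p' (q' + 1) +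
          G a b (m + d) (p' + 1) (q' + 1))
      nlinarith [i1.2.1, i2.2.1, i3.2.1]
    · show G a b m p q * (G a b (m + d) (p' + 1 + 1) (q' + 1) + G a b (m + d) (p' + 1) (q' + 1 + 1) +
          G a b (m + d) (p' + 1 + 1) (q' + 1 + 1)) ≤
        G a b m (p + 1) (q + 1) * (G a b (m + d) (p' + 1) q' + G a b (m + d) p' (q' + 1) +
          G a b (m + d) (p' + 1) (q' + 1))
      nlinarith [i1.2.2, i2.2.2, i3.2.2]

/-- **Core lemma.** -/
theorem c_P2 {a b : ℕ → ℝ} (a0 : ∀ i, 0 ≤ a i) (b0 : ∀ i, 0 ≤ b i) (ha : P2 a) (hb : P2 b) :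
    P2 (c a b) := by
  intro m n hmn
  obtain ⟨d, rfl⟩ := Nat.exists_eq_add_of_le hmn
  have h := G_cross a0 b0 ha hb m d 0 0 0 0 le_rfl le_rfl
  show G a b m 0 0 * (G a b (m + d) (0 + 1) 0 + G a b (m + d) 0 (0 + 1) +
      G a b (m + d) (0 + 1) (0 + 1)) ≤
    (G a b m (0 + 1) 0 + G a b m 0 (0 + 1) + G a b m (0 + 1) (0 + 1)) * G a b (m + d) 0 0
  nlinarith [h.1, h.2.1, h.2.2]

theorem Y_mul (a b : ℕ → ℝ) : ∀ k p q, Y a k p * Y b k q =
    ∑ n ∈ range (k + 1), (k.choose n : ℝ) * G a b n p q := by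
  intro k
  induction k with
  | zero => intro p q; simp [Y, G]
  | succ k ih =>
    intro p q
    show (Y a k p + Y a k (p + 1)) * (Y b k q + Y b k (q + 1)) = _
    have h := pascal_sum (fun n => G a b n p q) k
    rw [show k + 1 + 1 = k + 2 from rfl, ← h]
    have : ∀ n, G a b (n + 1) p q + G a b n p q = G a b n p q + G a b n (p + 1) q +
        G a b n p (q + 1) + G a b n (p + 1) (q + 1) := by
      intro n
      show G a b n (p + 1) q + G a b n p (q + 1) + G a b n (p + 1) (q + 1) + G a b n p q = _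
      ring
    simp only [this, mul_add, sum_add_distrib]
    rw [← ih, ← ih, ← ih, ← ih]
    ring

theorem Y_zero (a : ℕ → ℝ) : ∀ k x, Y a k x = ∑ j ∈ range (k + 1), (k.choose j : ℝ) * a (x + j) := by
  intro k
  induction k with
  | zero => intro x; simp [Y]
  | succ k ih =>
    intro x
    show Y a k x + Y a k (x + 1) = _
    have h := pascal_sum (fun j => a (x + j)) k
    rw [show k + 1 + 1 = k + 2 from rfl, ← h, ih, ih, ← sum_add_distrib]
    refine sum_congr rfl (fun j _ => ?_)
    have : x + 1 + j = x + (j + 1) := by omega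
    rw [this]; ring

/-- the product formula: `P(k) Q(k) = ∑ c_n C(k,n)` -/
theorem mul_formula (a b : ℕ → ℝ) (k : ℕ) :
    (∑ j ∈ range (k + 1), (k.choose j : ℝ) * a j) * (∑ j ∈ range (k + 1), (k.choose j : ℝ) * b j) =
      ∑ n ∈ range (k + 1), (k.choose n : ℝ) * c a b n := by
  have h := Y_mul a b k 0 0
  rw [Y_zero, Y_zero] at h
  simpa [c] using h

end Pool.Agent.Helper23.LCU
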